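import Pool.Agent.Lib.MP_c7af3c_ag.METC.Base

/-! The dual derivations of a transcendence basis commute. -/

set_option autoImplicit false

namespace Pool.Agent.MetC

open Pool.Agent.Gen IntermediateField

/-- a derivation which vanishes on `F` vanishes on a separable algebraic extension of `F` -/
theorem der_zero {k0 K : Type} [Field k0] [Field K] [Algebra k0 K] (F : IntermediateField k0 K)
    [Algebra.IsSeparable F K] (D : Derivation k0 K K) (hD : ∀ f ∈ F, D f = 0) (y : K) :
    D y = 0 := by
  let D' : Derivation F K K :=
    { toFun := D
      map_add' := map_add D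
      map_smul' := by
        intro a z
        rw [Algebra.smul_def, Derivation.leibniz]
        have h1 : D (algebraMap F K a) = 0 := hD _ a.2
        rw [h1, smul_zero, add_zero, RingHom.id_apply, smul_eq_mul, Algebra.smul_def]
      map_one_eq_zero' := D.map_one_eq_zero
      leibniz' := D.leibniz }
  have h2 : D' = 0 := by
    have : Algebra.FormallyUnramified F K := Algebra.FormallyUnramified.of_isSeparable F K
    have h3 : Subsingleton (Derivation F K K) :=
      (KaehlerDifferential.linearMapEquivDerivation F K).symm.toEquiv.injective.subsingleton
    exact Subsingleton.elim _ _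
  have h4 : D' y = 0 := by rw [h2]; rfl
  exact h4

theorem dat_comm {k0 K : Type} [Field k0] [CharZero k0] [Field K] [Algebra k0 K] {N : ℕ}
    (T : Dat k0 K N) (i j : Fin N) (f : K) : T.del i (T.del j f) = T.del j (T.del i f) := by
  have : FiniteDimensional (IntermediateField.adjoin k0 (Set.range T.t)) K := T.fin
  have hc : CharZero (IntermediateField.adjoin k0 (Set.range T.t)) :=
    charZero_of_injective_algebraMap
      (algebraMap k0 (IntermediateField.adjoin k0 (Set.range T.t))).injective
  have hz : ∀ f ∈ IntermediateField.adjoin k0 (Set.range T.t), ⁅T.del i, T.del j⁆ f = 0 := by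
    intro f hf
    induction hf using IntermediateField.adjoin_induction with
    | mem g hg =>
      obtain ⟨l, rfl⟩ := hg
      rw [Derivation.commutator_apply, T.dual, T.dual]
      split_ifs <;> simp
    | algebraMap a => exact Derivation.map_algebraMap _ a
    | add x y _ _ hx hy => rw [map_add, hx, hy, add_zero]
    | inv x hx hx' => rw [Derivation.leibniz_inv, hx', smul_zero]
    | mul x y hx hy hx' hy' => rw [Derivation.leibniz, hx', hy', smul_zero, smul_zero, add_zero]
  have h := der_zero (IntermediateField.adjoin k0 (Set.range T.t)) ⁅T.del i, T.del j⁆ hz f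
  rw [Derivation.commutator_apply, sub_eq_zero] at h
  exact h

end Pool.Agent.MetC
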