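import Pool.Agent.Lib.MP_c7af3c_ag.METC.Base
import Pool.Agent.Lib.MP_c7af3c_ag.GEN.H19.Chain

/-! From `KK(EE)` to `KK` (after GEN.H19.Chain). -/

set_option autoImplicit false

namespace Pool.Agent.MetC

open MvPolynomial Pool.Agent.Gen Pool.Agent.Gen.H19

/-- the ambient field over a larger field of constants -/
noncomputable def ext (hL : LdtStatement) {k Ω : Type} [Field k] [Field Ω] [Algebra k Ω]
    {ι : Type} (A : Amb k Ω ι) (C : IntermediateField k Ω) (hC : C ≤ A.EE) :
    Amb C Ω ι where
  KK := IntermediateField.adjoin C (A.KK : Set Ω)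
  EE := IntermediateField.extendScalars hC
  ld := hL k Ω A.KK A.EE C hC A.ld
  D := A.D
  a_mem := fun s => IntermediateField.subset_adjoin _ _ (A.a_mem s)
  del_KK := by
    intro s f hf
    induction hf using IntermediateField.adjoin_induction with
    | mem x hx => exact IntermediateField.subset_adjoin _ _ (A.del_KK s x hx)
    | algebraMap x =>
      have h1 : (algebraMap C Ω x) ∈ A.EE := hC x.2
      rw [A.del_EE s _ h1]
      exact zero_mem _
    | add x y _ _ hx hy => rw [map_add]; exact add_mem hx hy
    | inv x hx h =>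
      rw [Derivation.leibniz_inv, smul_eq_mul]
      exact mul_mem (neg_mem (pow_mem (inv_mem hx) 2)) h
    | mul x y hx' hy' hx hy =>
      rw [Derivation.leibniz, smul_eq_mul, smul_eq_mul]
      exact add_mem (mul_mem hx' hy) (mul_mem hy' hx)
  del_EE := fun s f hf => A.del_EE s f hf

theorem mem_adj {C Ω : Type} [Field C] [Field Ω] [Algebra C Ω] (K' : IntermediateField C Ω)
    (G : Set Ω) {z : Ω} (hz : z ∈ K') : z ∈ IntermediateField.adjoin K' G :=
  (IntermediateField.adjoin K' G).algebraMap_mem ⟨z, hz⟩

theorem adj_le {k Ω : Type} [Field k] [Field Ω] [Algebra k Ω] (C : IntermediateField k Ω)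
    (K : IntermediateField k Ω) (K' : IntermediateField C Ω) (G G' : Set Ω)
    (hK : ∀ z ∈ K, z ∈ K') (hG : G ⊆ G') :
    ∀ z ∈ K ⊔ IntermediateField.adjoin k G, z ∈ IntermediateField.adjoin K' G' := by
  have h0 : ∀ z ∈ (K : Set Ω) ∪ G, z ∈ IntermediateField.adjoin K' G' := by
    rintro z (hz | hz)
    · exact mem_adj _ _ (hK z hz)
    · exact IntermediateField.subset_adjoin _ _ (hG hz)
  intro z hz
  have h1 : K ⊔ IntermediateField.adjoin k G = IntermediateField.adjoin k ((K : Set Ω) ∪ G) := by
    rw [IntermediateField.adjoin_union, IntermediateField.adjoin_self]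
  rw [h1] at hz
  induction hz using IntermediateField.adjoin_induction with
  | mem g hg => exact h0 g hg
  | algebraMap a =>
    exact (IntermediateField.adjoin K' G').algebraMap_mem (algebraMap C K' (algebraMap k C a))
  | add x y _ _ hx hy => exact add_mem hx hy
  | inv x hx hx' => exact inv_mem hx'
  | mul x y hx hy hx' hy' => exact mul_mem hx' hy'

theorem mem_ext (hL : LdtStatement) {k Ω : Type} [Field k] [Field Ω] [Algebra k Ω]
    {ι : Type} (A : Amb k Ω ι) (C : IntermediateField k Ω) (hC : C ≤ A.EE) (z : Ω)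
    (hz : z ∈ A.KK) : z ∈ (ext hL A C hC).KK :=
  IntermediateField.subset_adjoin _ _ hz

theorem ext_KK (hL : LdtStatement) {k Ω : Type} [Field k] [Field Ω] [Algebra k Ω]
    {ι : Type} (A : Amb k Ω ι) (C : IntermediateField k Ω) (hC : C ≤ A.EE) :
    (ext hL A C hC).KK = IntermediateField.adjoin C (A.KK : Set Ω) := rfl

theorem step (hR : RigidS) (hL : LdtStatement) {k Ω : Type} [Field k] [IsAlgClosed k]
    [CharZero k] [Field Ω] [Algebra k Ω] {R ι J : Type} [CommRing R] [Finite J]
    (E : Set (MvPolynomial (ι ⊕ J) R)) (hHB : HB E) (φ : R →+* k) (A : Amb k Ω ι)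
    (z : J → Ω) (hz : Sol E ((algebraMap k Ω).comp φ) A.D.a z)
    (C C' : IntermediateField k Ω) [IsAlgClosed C] (hCC : C ≤ C') (hCE : C' ≤ A.EE) (γ : Ω)
    (hγ : γ ∈ C')
    (halg : ∀ z ∈ C', IsAlgebraic (IntermediateField.adjoin C {γ}) z)
    (hzC : ∀ j, z j ∈ A.KK ⊔ C') : ∀ j, z j ∈ A.KK ⊔ C := by
  by_cases hγC : γ ∈ C
  · have h1 : IntermediateField.adjoin C {γ} = ⊥ := by
      rw [IntermediateField.adjoin_simple_eq_bot_iff, IntermediateField.mem_bot]
      exact ⟨⟨γ, hγC⟩, rfl⟩
    have h2 : C' ≤ C := by
      intro z hz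
      have h3 := halg z hz
      rw [h1] at h3
      refine mem_of_isAlg (E := C) (isAlg_mono (IntermediateField.botEquiv C Ω).toRingEquiv.toRingHom
        (fun r => ?_) h3)
      obtain ⟨e, he⟩ := (IntermediateField.botEquiv C Ω).symm.surjective r
      rw [← he]
      simp
    intro j
    exact (sup_le_sup_left h2 A.KK) (hzC j)
  · have htr : Transcendental C γ := fun h => hγC (mem_of_isAlg h)
    obtain ⟨S, hS1, hS2⟩ := exists_fin A.KK C' z hzC
    have hch : CharZero C := charZero_of_injective_algebraMap (algebraMap k C).injective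
    have h1 := hR R C Ω ι J E hHB ((algebraMap k C).comp φ) (ext hL A C (hCC.trans hCE)) γ
      (hCE hγ) htr (S : Set Ω)
      S.finite_toSet (fun s hs => ⟨hCE (hS1 s hs), halg s (hS1 s hs)⟩) z hz
      (by
        intro j
        exact adj_le C A.KK (ext hL A C (hCC.trans hCE)).KK (S : Set Ω) (insert γ (S : Set Ω))
          (mem_ext hL A C (hCC.trans hCE)) (Set.subset_insert _ _) (z j) (hS2 j))
    intro j
    have h4 := h1 j
    rw [ext_KK] at h4
    have h5 : z j ∈ (IntermediateField.adjoin C (A.KK : Set Ω)).restrictScalars k := h4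
    rw [sup_le_adjoin, sup_comm] at h5
    exact h5

theorem chain (hR : RigidS) (hL : LdtStatement) : ChainS := by
  intro R k Ω _ _ _ _ _ _ ι J _ E hHB φ A hE z hz hzE
  classical
  have key : ∀ Γ : Finset Ω, (∀ g ∈ Γ, g ∈ A.EE) →
      (∀ j, z j ∈ A.KK ⊔ acl (IntermediateField.adjoin k (Γ : Set Ω))) → ∀ j, z j ∈ A.KK := by
    intro Γ
    induction Γ using Finset.induction_on with
    | empty =>
      intro _ h j
      have h1 : acl (IntermediateField.adjoin k ((∅ : Finset Ω) : Set Ω)) ≤ ⊥ := by
        intro z hz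
        rw [mem_acl] at hz
        rw [Finset.coe_empty, IntermediateField.adjoin_empty] at hz
        have h2 : IsAlgebraic k z := by
          refine isAlg_mono (IntermediateField.botEquiv k Ω).toRingEquiv.toRingHom (fun r => ?_) hz
          obtain ⟨e, he⟩ := (IntermediateField.botEquiv k Ω).symm.surjective r
          rw [← he]
          simp
        have h3 := IsAlgClosed.degree_eq_one_of_irreducible k (minpoly.irreducible h2.isIntegral)
        obtain ⟨e, he⟩ := minpoly.mem_range_of_degree_eq_one k z h3
        rw [IntermediateField.mem_bot]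
        exact ⟨e, he⟩
      have h2 := (sup_le_sup_left h1 A.KK) (h j)
      rwa [sup_bot_eq] at h2
    | insert γ Γ hγ ih =>
      intro hΓ h
      have hle : ∀ T : Finset Ω, (∀ g ∈ T, g ∈ A.EE) → IntermediateField.adjoin k (T : Set Ω) ≤ A.EE := by
        intro T hT
        rw [IntermediateField.adjoin_le_iff]
        exact fun z hz => hT z hz
      have hΓ' : ∀ g ∈ Γ, g ∈ A.EE := fun g hg => hΓ g (Finset.mem_insert_of_mem hg)
      have hac := acl_isAlgClosed (hle Γ hΓ')
      refine ih hΓ' (step hR hL E hHB φ A z hz (acl (IntermediateField.adjoin k (Γ : Set Ω)))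
        (acl (IntermediateField.adjoin k (insert γ Γ : Finset Ω))) ?_ (acl_le (hle _ hΓ)) γ ?_ ?_ h)
      · intro z hz
        rw [mem_acl] at hz ⊢
        apply isAlg_of_le _ hz
        apply IntermediateField.adjoin.mono
        rw [Finset.coe_insert]
        exact Set.subset_insert _ _
      · apply le_acl
        apply IntermediateField.subset_adjoin
        rw [Finset.coe_insert]
        exact Set.mem_insert _ _
      · intro z hz
        rw [mem_acl] at hz
        have h2 : IntermediateField.adjoin k ((insert γ Γ : Finset Ω) : Set Ω) ≤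
            (IntermediateField.adjoin (acl (IntermediateField.adjoin k (Γ : Set Ω))) {γ}).restrictScalars k := by
          rw [IntermediateField.adjoin_le_iff, Finset.coe_insert, Set.insert_subset_iff]
          constructor
          · exact IntermediateField.mem_adjoin_simple_self _ γ
          · intro g hg
            have h3 : g ∈ acl (IntermediateField.adjoin k (Γ : Set Ω)) :=
              le_acl _ (IntermediateField.subset_adjoin _ _ hg)
            exact (IntermediateField.adjoin (acl (IntermediateField.adjoin k (Γ : Set Ω)))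
              {γ}).algebraMap_mem ⟨g, h3⟩
        have h4 := isAlg_of_le h2 hz
        exact h4
  obtain ⟨S, hS1, hS2⟩ := exists_fin A.KK A.EE z hzE
  exact key S hS1 fun j => (sup_le_sup_left (le_acl _) A.KK) (hS2 j)

end Pool.Agent.MetC
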