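import Pool.Agent.Lib.MP_c7af3c_ag.METC.Base

/-! Bounded heights in every direction (after GEN.H52.Height). -/

set_option autoImplicit false

namespace Pool.Agent.MetC

open MvPolynomial WithZero Pool.Agent.Gen

theorem height (hProd : ProdStatement) (hPlace : PlaceStatement) (hDerb : DerbStatement)
    (hDir : DirStatement) : HeightS := by
  classical
  intro R k0 K _ _ _ _ _ N T hdir ι J _ E φ D hdel hHB i
  obtain ⟨A, hA⟩ := hHB
  have hcK : CharZero K := charZero_of_injective_algebraMap (algebraMap k0 K).injective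
  have := Fintype.ofFinite ι
  set S := ffPlaces (hdir i) with hSdef
  have hS : S.IsProd := hProd _ K _ (hdir i)
  have hM : ∀ j, ∃ M : S.V → ℕ, {p | M p ≠ 0}.Finite ∧
      ∀ p f, S.v p f ≤ 1 → S.v p (T.del j f) ≤ exp (M p : ℤ) := by
    intro j
    have := hDerb _ K _ (hdir i) ((T.del j).restrictScalars ℤ) ?_ ?_
    · exact this
    · rintro ⟨a, ha⟩
      exact ⟨⟨_, (hDir k0 K N T i).2 j a ha⟩, rfl⟩
    · have h1 : T.del j (T.t i) = if j = i then 1 else 0 := T.dual j i
      refine ⟨if j = i then 1 else 0, ?_⟩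
      change T.del j (T.t i) = _
      rw [h1]
      split_ifs
      · rw [map_one]
      · rw [map_zero]
  choose Mj hMjfin hMj using hM
  have hane : ∀ s, D.a s ≠ 0 := by
    intro s h0
    have h1 := D.one s
    rw [h0, map_zero] at h1
    exact zero_ne_one h1
  set Ma : S.V → ℕ := fun p => ∑ s, (log (S.v p (D.a s))).toNat with hMa
  set M : S.V → ℕ := fun p => ∑ j, Mj j p + Ma p with hMdef
  have hMfin : {p | M p ≠ 0}.Finite := by
    have h1 : (⋃ j, {p | Mj j p ≠ 0}).Finite := Set.finite_iUnion hMjfin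
    have h2 : (⋃ s, {p | S.v p (D.a s) ≠ 1}).Finite :=
      Set.finite_iUnion fun s => hS.fin _ (hane s)
    refine (h1.union h2).subset fun p hp => ?_
    by_contra hc
    simp only [Set.mem_union, Set.mem_iUnion, Set.mem_ofPred_eq, not_or, not_exists, not_not] at hc
    apply hp
    have e1 : ∑ j, Mj j p = 0 := Finset.sum_eq_zero fun j _ => hc.1 j
    have e2 : Ma p = 0 := by
      simp only [hMa]
      refine Finset.sum_eq_zero fun s _ => ?_
      have := hc.2 s
      rw [this, log_one]
      rfl
    simp only [hMdef]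
    rw [e1, e2]
  refine ⟨A * ∑ᶠ p, (S.w p : ℤ) * M p, fun z hz j => ?_⟩
  refine hA K _ D ?_ z hz S hS ?_ M ⟨hMfin, ?_, ?_⟩ j
  · intro s r
    obtain ⟨j, hj⟩ := hdel s
    rw [hj]
    exact (T.del j).map_algebraMap (φ r)
  · intro p r
    exact (hPlace _ K _ (hdir i)).const p (algebraMap k0 _ (φ r))
  · intro p s f hf
    obtain ⟨j, hj⟩ := hdel s
    rw [hj f]
    refine (hMj j p f hf).trans (WithZero.exp_le_exp.2 ?_)
    have h1 : Mj j p ≤ ∑ j, Mj j p :=
      Finset.single_le_sum (f := fun j => Mj j p) (fun _ _ => Nat.zero_le _) (Finset.mem_univ j)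
    have h2 : Mj j p ≤ M p := by
      simp only [hMdef]
      omega
    exact_mod_cast h2
  · intro p s
    have hne : S.v p (D.a s) ≠ 0 := by
      rw [Ne, map_eq_zero]
      exact hane s
    rw [← exp_log hne]
    refine WithZero.exp_le_exp.2 ((Int.self_le_toNat _).trans ?_)
    have h1 : (log (S.v p (D.a s))).toNat ≤ Ma p :=
      Finset.single_le_sum (f := fun s => (log (S.v p (D.a s))).toNat)
        (fun _ _ => Nat.zero_le _) (Finset.mem_univ s)
    have h3 : (log (S.v p (D.a s))).toNat ≤ M p := by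
      simp only [hMdef]
      omega
    exact_mod_cast h3

end Pool.Agent.MetC
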